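import Pool.Agent.helper90.FL.Spec

set_option autoImplicit false

namespace Pool.Agent.helper90.FL

open Finset Polynomial
open scoped Classical

theorem TCH_mono {V E : Type} {s t : E → V} {D D' : Finset E} (h : D ⊆ D') {S : Set V}
    (hS : Cl s t D' S) : Cl s t D S := fun e he => hS e (h he)

theorem TCH_lp {V E : Type} {s t : E → V} {D D' : Finset E} (h : D ⊆ D') {e : E}
    (hL : Lp s t D e) : Lp s t D' e := fun S hS => hL S (TCH_mono h hS)

theorem TCH_main (h : CLS_stmt) (V E : Type) [Fintype V] (s t : E → V) :
    ∀ (n : ℕ) (D I : Finset E), I.card = n + 1 → Ind s t D I → n + 2 ≤ (tc s t D I).ncard := by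
  intro n
  induction n with
  | zero =>
    intro D I hI hInd
    obtain ⟨e, rfl⟩ := card_eq_one.1 hI
    have h1 := hInd e (mem_singleton_self e)
    have h2 : ¬ Lp s t D e := fun hL => h1 (TCH_lp subset_union_left hL)
    have hne : cls s t D (s e) ≠ cls s t D (t e) := fun he =>
      h2 (((h V E s t D).2.2.2.2 e).1 he)
    have hsub : ({cls s t D (s e), cls s t D (t e)} : Set (Set V)) ⊆ tc s t D {e} := by
      rintro T (rfl | rfl)
      · exact ⟨e, mem_singleton_self e, Or.inl rfl⟩
      · exact ⟨e, mem_singleton_self e, Or.inr rfl⟩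
    have := Set.ncard_le_ncard hsub (Set.toFinite _)
    rw [Set.ncard_pair hne] at this
    exact this
  | succ n ih =>
    intro D I hI hInd
    obtain ⟨e, he⟩ : I.Nonempty := card_pos.1 (by omega)
    have hcard : (I.erase e).card = n + 1 := by
      rw [card_erase_of_mem he]; omega
    have hInd' : Ind s t (insert e D) (I.erase e) := by
      intro e' he' hL
      have he1 := mem_erase.1 he'
      have heq : insert e D ∪ (I.erase e).erase e' = D ∪ I.erase e' := by
        ext a
        simp only [mem_union, mem_insert, mem_erase]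
        constructor
        · rintro ((rfl | ha) | ⟨h1, h2, h3⟩)
          · exact Or.inr ⟨fun hh => he1.1 hh.symm, he⟩
          · exact Or.inl ha
          · exact Or.inr ⟨h1, h3⟩
        · rintro (ha | ⟨h1, h2⟩)
          · exact Or.inl (Or.inr ha)
          · by_cases hae : a = e
            · exact Or.inl (Or.inl hae)
            · exact Or.inr ⟨h1, hae, h2⟩
      rw [heq] at hL
      exact hInd e' he1.2 hL
    have hih := ih (insert e D) (I.erase e) hcard hInd'
    obtain ⟨c1, c2, c3, c4, c5⟩ := h V E s t (insert e D)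
    obtain ⟨d1, d2, d3, d4, d5⟩ := h V E s t D
    have hnL : ¬ Lp s t D e := fun hL => hInd e he (TCH_lp subset_union_left hL)
    have hne : cls s t D (s e) ≠ cls s t D (t e) := fun hh => hnL ((d5 e).1 hh)
    obtain ⟨M, hM⟩ : ∃ M, M = cls s t (insert e D) (s e) := ⟨_, rfl⟩
    have hM2 : M = cls s t (insert e D) (t e) := by
      rw [hM]
      refine (c5 e).2 ?_
      intro S hS
      exact hS e (mem_insert_self e D)
    obtain ⟨g, hg⟩ : ∃ g : Set V → Set V, ∀ T, g T = ⋃ v ∈ T, cls s t (insert e D) v :=
      ⟨fun T => ⋃ v ∈ T, cls s t (insert e D) v, fun T => rfl⟩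
    have hgc : ∀ v, g (cls s t D v) = cls s t (insert e D) v := by
      intro v
      rw [hg]
      apply Set.Subset.antisymm
      · intro a ha
        rw [Set.mem_iUnion₂] at ha
        obtain ⟨v', hv', hav⟩ := ha
        have h1 : v' ∈ cls s t (insert e D) v :=
          d4 v _ (TCH_mono (subset_insert e D) (c2 v)) (c1 v) hv'
        rw [c3 v v' h1] at hav
        exact hav
      · intro a ha
        rw [Set.mem_iUnion₂]
        exact ⟨v, d1 v, ha⟩
    have hsub : tc s t (insert e D) (I.erase e) \ {M} ⊆
        g '' (tc s t D I \ {cls s t D (s e), cls s t D (t e)}) := by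
      rintro T ⟨⟨e', he', hT⟩, hTM⟩
      have he1 := mem_erase.1 he'
      rcases hT with hT | hT
      · refine ⟨cls s t D (s e'), ⟨⟨e', he1.2, Or.inl rfl⟩, ?_⟩, ?_⟩
        · rintro (hc | hc)
          · apply hTM
            show T = M
            rw [hT, ← hgc, hc, hgc, hM]
          · apply hTM
            show T = M
            rw [hT, ← hgc, hc, hgc, hM2]
        · rw [hgc, hT]
      · refine ⟨cls s t D (t e'), ⟨⟨e', he1.2, Or.inr rfl⟩, ?_⟩, ?_⟩
        · rintro (hc | hc)
          · apply hTM
            show T = M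
            rw [hT, ← hgc, hc, hgc, hM]
          · apply hTM
            show T = M
            rw [hT, ← hgc, hc, hgc, hM2]
        · rw [hgc, hT]
    have n1 := Set.ncard_le_ncard hsub (Set.toFinite _)
    have n2 := Set.ncard_image_le (f := g)
      (s := tc s t D I \ {cls s t D (s e), cls s t D (t e)}) (Set.toFinite _)
    have hpair : ({cls s t D (s e), cls s t D (t e)} : Set (Set V)) ⊆ tc s t D I := by
      rintro T (rfl | rfl)
      · exact ⟨e, he, Or.inl rfl⟩
      · exact ⟨e, he, Or.inr rfl⟩
    have n3 := Set.ncard_sdiff_add_ncard_of_subset hpair (Set.toFinite _)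
    rw [Set.ncard_pair hne] at n3
    have n4 := Set.pred_ncard_le_ncard_sdiff_singleton (tc s t (insert e D) (I.erase e)) M
    omega

theorem TCH (h : CLS_stmt) : TCH_stmt := by
  intro V E _ s t D I hI hInd
  obtain ⟨n, hn⟩ : ∃ n, I.card = n + 1 := ⟨I.card - 1, by
    have := card_pos.2 hI
    omega⟩
  have := TCH_main h V E s t n D I hn hInd
  omega

end Pool.Agent.helper90.FL
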